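import Pool.Agent.H94.PF.Final

/-!
The de Bruijn-Newman kernel is a Polya frequency function of order four.
-/

namespace Pool.Agent.Results.MP_9f46b9_an.PolyaOrderFour

/-- The function `Φ` entering the de Bruijn-Newman family; the summation index `n + 1` runs over
the positive integers. -/
noncomputable def Phi (u : ℝ) : ℝ :=
  ∑' n : ℕ, (2 * Real.pi ^ 2 * ((n : ℝ) + 1) ^ 4 * Real.exp (9 * u)
      - 3 * Real.pi * ((n : ℝ) + 1) ^ 2 * Real.exp (5 * u))
    * Real.exp (-(Real.pi * ((n : ℝ) + 1) ^ 2 * Real.exp (4 * u)))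

/-- The kernel `K(u) = Φ(|u|)`. -/
noncomputable def K (u : ℝ) : ℝ := Phi |u|

/-- `f` takes values in `[0, ∞)` and is a Polya frequency function of order `k`: all the
determinants `det [f (x_i - y_j)]` of size `r`, `1 ≤ r ≤ k`, with `x` and `y` strictly increasing,
are nonnegative. -/
def IsPF (k : ℕ) (f : ℝ → ℝ) : Prop :=
  (∀ u, 0 ≤ f u) ∧ ∀ r : ℕ, 1 ≤ r → r ≤ k → ∀ x y : Fin r → ℝ, StrictMono x → StrictMono y →
    0 ≤ (Matrix.of fun i j : Fin r => f (x i - y j)).det

lemma Phi_eq (u : ℝ) : Phi u = Pool.Agent.H94.PF.TT Pool.Agent.H94.PF.P0 u := by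
  unfold Phi Pool.Agent.H94.PF.TT Pool.Agent.H94.PF.sm
  rw [← tsum_mul_left]
  congr 1
  funext n
  have e9 : Real.exp (9 * u) = Real.exp u * Real.exp (4 * u) ^ 2 := by
    rw [← Real.exp_nat_mul, ← Real.exp_add]; congr 1; push_cast; ring
  have e5 : Real.exp (5 * u) = Real.exp u * Real.exp (4 * u) := by
    rw [← Real.exp_add]; congr 1; ring
  simp only [Pool.Agent.H94.PF.tm, Pool.Agent.H94.PF.yy, Pool.Agent.H94.PF.P0,
    Polynomial.eval_sub, Polynomial.eval_mul, Polynomial.eval_C, Polynomial.eval_pow,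
    Polynomial.eval_X]
  rw [e9, e5]
  ring

lemma K_eq (u : ℝ) : K u = Pool.Agent.H94.PF.TT Pool.Agent.H94.PF.P0 u := by
  unfold K
  rw [Phi_eq]
  rcases abs_choice u with h | h
  · rw [h]
  · rw [h, Pool.Agent.H94.PF.TT_P0_even]

/-- **The de Bruijn-Newman kernel belongs to `PF_4`**, and the determinants of size at most four
are in fact strictly positive. -/
theorem result : IsPF 4 K ∧
    ∀ r : ℕ, r ≤ 4 → ∀ x y : Fin r → ℝ, StrictMono x → StrictMono y →
      0 < (Matrix.of fun i j : Fin r => K (x i - y j)).det := by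
  have key : ∀ r : ℕ, r ≤ 4 → ∀ x y : Fin r → ℝ, StrictMono x → StrictMono y →
      0 < (Matrix.of fun i j : Fin r => K (x i - y j)).det := by
    intro r hr x y hx hy
    simp only [K_eq]
    exact Pool.Agent.H94.PF.stp4 r hr x y hx hy
  refine ⟨⟨fun u => ?_, fun r _ hr x y hx hy => (key r hr x y hx hy).le⟩, key⟩
  have h := key 1 (by norm_num) (fun _ => u) (fun _ => 0)
    (fun i j hij => absurd hij (by simp [Subsingleton.elim i j]))
    (fun i j hij => absurd hij (by simp [Subsingleton.elim i j]))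
  simp at h
  exact h.le

end Pool.Agent.Results.MP_9f46b9_an.PolyaOrderFour
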